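import Pool.Agent.G02.StmtsS

/-!
# Row FSQ of squad G02 (MP_ba5221_nt)
-/

set_option autoImplicit false

namespace Pool.Agent.G02.H62

open Polynomial Pool.Agent.NJ Pool.Agent.GT.F

/-- A homogeneous cubic relation makes the quotient constant. -/
theorem quot_const (A b : ℚ[X]) (c : ℚ) (hb : b ≠ 0)
    (h : 16 * (A + 12 * b) ^ 3 = C c * (b * (A - 4 * b) ^ 2)) : ∃ d : ℚ, A = C d * b := by
  classical
  set g := EuclideanDomain.gcd A b with hg
  obtain ⟨f, hf⟩ : g ∣ A := EuclideanDomain.gcd_dvd_left A b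
  obtain ⟨w, hw⟩ : g ∣ b := EuclideanDomain.gcd_dvd_right A b
  have hg0 : g ≠ 0 := by
    intro h0
    rw [h0, zero_mul] at hw
    exact hb hw
  have hw0 : w ≠ 0 := by
    intro h0
    rw [h0, mul_zero] at hw
    exact hb hw
  have hcop : IsCoprime f w := by
    have h1 : g = A * EuclideanDomain.gcdA A b + b * EuclideanDomain.gcdB A b :=
      EuclideanDomain.gcd_eq_gcd_ab A b
    refine ⟨EuclideanDomain.gcdA A b, EuclideanDomain.gcdB A b, ?_⟩
    apply mul_left_cancel₀ hg0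
    linear_combination -h1 + EuclideanDomain.gcdA A b * (-hf) + EuclideanDomain.gcdB A b * (-hw)
  have h2 : 16 * (f + 12 * w) ^ 3 = C c * (w * (f - 4 * w) ^ 2) := by
    apply mul_left_cancel₀ (pow_ne_zero 3 hg0)
    rw [hf, hw] at h
    linear_combination h
  have h3 : w ∣ 16 * f ^ 3 := by
    refine ⟨C c * (f - 4 * w) ^ 2 - 16 * (36 * f ^ 2 + 432 * f * w + 1728 * w ^ 2), ?_⟩
    linear_combination h2
  have h16 : (16 : ℚ[X]) = C 16 := (map_ofNat C 16).symm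
  have h4 : w ∣ 16 := (hcop.symm.pow_right (n := 3)).dvd_of_dvd_mul_right h3
  have hwu : IsUnit w := by
    apply isUnit_of_dvd_unit h4
    rw [h16]
    exact isUnit_C.2 (isUnit_iff_ne_zero.2 (by norm_num))
  obtain ⟨w0, hw1, hw2⟩ := Polynomial.isUnit_iff.1 hwu
  have hw0' : w0 ≠ 0 := hw1.ne_zero
  have hf0 : f.natDegree = 0 := by
    by_contra hn
    have hn' : 0 < f.natDegree := Nat.pos_of_ne_zero hn
    have h12 : (12 : ℚ[X]) = C 12 := (map_ofNat C 12).symm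
    have e1 : (f + 12 * w).natDegree = f.natDegree := by
      rw [← hw2, h12, ← C_mul]
      exact natDegree_add_C
    have h44 : (4 : ℚ[X]) = C 4 := (map_ofNat C 4).symm
    have e2 : (f - 4 * w).natDegree = f.natDegree := by
      rw [← hw2, h44, ← C_mul]
      exact natDegree_sub_C
    have e3 : (16 * (f + 12 * w) ^ 3).natDegree = 3 * f.natDegree := by
      rw [h16, natDegree_C_mul (by norm_num), natDegree_pow, e1]
    have e4 : (C c * (w * (f - 4 * w) ^ 2)).natDegree ≤ 2 * f.natDegree := by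
      rw [← hw2] at e2 ⊢
      refine (natDegree_C_mul_le _ _).trans ((natDegree_C_mul_le _ _).trans ?_)
      rw [natDegree_pow, e2]
    rw [h2] at e3
    omega
  obtain ⟨f0, hf1⟩ : ∃ f0 : ℚ, f = C f0 := ⟨_, eq_C_of_natDegree_eq_zero hf0⟩
  refine ⟨f0 / w0, ?_⟩
  have h5 : C (f0 / w0) * C w0 = (C f0 : ℚ[X]) := by
    rw [← C_mul, div_mul_cancel₀ _ hw0']
  calc A = g * C f0 := by rw [← hf1]; exact hf
    _ = g * (C (f0 / w0) * C w0) := by rw [h5]
    _ = C (f0 / w0) * (g * w) := by rw [← hw2]; ring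
    _ = C (f0 / w0) * b := by rw [← hw]

/-- The isogenous curve. -/
theorem rt1_iso {R : Type} [CommRing R] (a b : R) :
    Rt1 (⟨0, -2 * a, 0, a ^ 2 - 4 * b, 0⟩ : WeierstrassCurve R) 0 (-2 * a) (a ^ 2 - 4 * b) := by
  refine ⟨?_, ?_, ?_⟩
  · simp only [WeierstrassCurve.b₂]; ring
  · simp only [WeierstrassCurve.b₄]; ring
  · simp only [WeierstrassCurve.b₆]; ring

theorem fib_iso (a b : ℚ[X]) (t : ℚ) :
    fib ⟨0, -2 * a, 0, a ^ 2 - 4 * b, 0⟩ t =
      ⟨0, -2 * a.eval t, 0, a.eval t ^ 2 - 4 * b.eval t, 0⟩ := by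
  unfold fib
  ext
  · simp [WeierstrassCurve.map]
  · simp [WeierstrassCurve.map]
  · simp [WeierstrassCurve.map]
  · simp [WeierstrassCurve.map]
  · simp [WeierstrassCurve.map]

theorem fsq (njf : NjfStmt) (gbi : GbiStmt) (ft2 : Ft2Stmt) (t4a : T4aStmt) (t4b : T4bStmt)
    (t4c : T4cStmt) (ni1 : Ni1Stmt) (dlt : DltStmt) : FsqStmt := by
  intro E e a b hΔ hni hR hb hsq
  have hD := dlt _ E e a b hR
  have hb0 : b ≠ 0 := by
    rintro rfl
    exact hΔ (by rw [hD]; ring)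
  have hc0 : a ^ 2 - 4 * b ≠ 0 := by
    intro h
    exact hΔ (by rw [hD, h]; ring)
  set E' : WeierstrassCurve ℚ[X] := ⟨0, -2 * a, 0, a ^ 2 - 4 * b, 0⟩ with hE'
  have hR' : Rt1 E' 0 (-2 * a) (a ^ 2 - 4 * b) := rt1_iso a b
  have hD' : E'.Δ = 256 * (b * (a ^ 2 - 4 * b) ^ 2) := by
    rw [dlt _ E' 0 _ _ hR']
    ring
  have hch : CharZero (RatFunc ℚ) :=
    charZero_of_injective_algebraMap (R := ℚ[X])
      (IsFractionRing.injective ℚ[X] (RatFunc ℚ))
  have h256 : (256 : ℚ[X]) ≠ 0 := by norm_num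
  have hΔ' : E'.Δ ≠ 0 := by
    rw [hD']
    exact mul_ne_zero h256 (mul_ne_zero hb0 (pow_ne_zero 2 hc0))
  have hg' : (gen E').Δ ≠ 0 := by
    unfold gen
    rw [WeierstrassCurve.map_Δ]
    exact (map_ne_zero_iff _ (IsFractionRing.injective ℚ[X] (RatFunc ℚ))).2 hΔ'
  have hc4 : E'.c₄ = 16 * (a ^ 2 + 12 * b) := by
    rw [WeierstrassCurve.c₄, hR'.1, hR'.2.1]
    ring
  have hni' : Nonisotrivial E' := by
    intro c hc
    rw [hc4, hD'] at hc
    have h1 : 16 * (a ^ 2 + 12 * b) ^ 3 = C c * (b * (a ^ 2 - 4 * b) ^ 2) := by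
      apply mul_left_cancel₀ h256
      linear_combination hc
    obtain ⟨d, hd⟩ := quot_const (a ^ 2) b c hb0 h1
    exact ni1 E e a b hΔ hni hR d hd
  have hfull : FullTwo (gen E') := by
    refine ft2 _ (gen E') _ _ _ hg' (hR'.map (algebraMap ℚ[X] (RatFunc ℚ))) ?_
    obtain ⟨s, hs⟩ := hsq
    refine ⟨algebraMap ℚ[X] (RatFunc ℚ) (4 * s), ?_⟩
    rw [← map_mul, show (4 * s) * (4 * s) = (-2 * a) ^ 2 - 4 * (a ^ 2 - 4 * b) by rw [hs]; ring]
    simp only [map_sub, map_mul, map_pow, map_ofNat]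
  have hbad : (badPlaces E').encard ≤ 3 := (Set.encard_le_encard (gbi E e a b hR)).trans hb
  have hinf := njf E' hΔ' hni' hfull hbad
  have hfR : ∀ t : ℚ, Rt1 (fib E t) (e.eval t) (a.eval t) (b.eval t) := fun t =>
    hR.map (evalRingHom t)
  have hpt : ∀ t : ℚ, Two (fib E' t) → ∀ x y : ℚ, (fib E t).toAffine.Equation x y →
      2 * y + (fib E t).a₁ * x + (fib E t).a₃ = 0 ∨ (x - e.eval t) ^ 2 = b.eval t := by
    intro t ht
    rw [hE', fib_iso] at ht
    exact t4a ℚ (fib E t) _ _ _ (hfR t) ht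
  have hgen : rk (gen E) = 0 := by
    refine t4c (RatFunc ℚ) (gen E) _ _ _ (hR.map (algebraMap ℚ[X] (RatFunc ℚ))) ?_
    exact t4b E e b (hinf.mono (fun t ht => hpt t ht.2))
  refine ⟨hgen, hinf.mono ?_⟩
  rintro t ⟨ht1, ht2⟩
  refine ⟨?_, ?_⟩
  · rw [dlt _ (fib E t) _ _ _ (hfR t)]
    have h3 : (fib E' t).Δ = 256 * (b.eval t * (a.eval t ^ 2 - 4 * b.eval t) ^ 2) := by
      rw [hE', fib_iso, dlt _ _ 0 _ _ (rt1_iso (a.eval t) (b.eval t))]
      ring
    rw [h3] at ht1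
    have h4 : b.eval t ≠ 0 := by
      intro h; exact ht1 (by rw [h]; ring)
    have h5 : a.eval t ^ 2 - 4 * b.eval t ≠ 0 := by
      intro h; exact ht1 (by rw [h]; ring)
    exact mul_ne_zero (mul_ne_zero (by norm_num) (pow_ne_zero 2 h4)) h5
  · rw [hgen]
    exact t4c ℚ (fib E t) _ _ _ (hfR t) (hpt t ht2)

end Pool.Agent.G02.H62
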