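import Pool.Agent.G02.Stmts

/-!
# Squad G02, row VC2: recipe C, the second curve
-/

set_option autoImplicit false

namespace Pool.Agent.G02.H62

open Pool.Agent.NJ

theorem not_dvd {p q : ℕ} (hp : p.Prime) (hq : q.Prime) (h : p ≠ q) : ¬ (p : ℤ) ∣ (q : ℤ) := by
  intro hd
  have := Int.natCast_dvd_natCast.mp hd
  exact h ((Nat.prime_dvd_prime_iff_eq hp hq).mp this)

theorem leg_one (p : ℕ) [Fact p.Prime] : legendreSym p 1 = 1 := legendreSym.at_one p

theorem leg_neg_one (p : ℕ) [Fact p.Prime] (h : p % 4 = 3) : legendreSym p (-1) = -1 := by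
  have hp2 : p ≠ 2 := by omega
  rw [legendreSym.at_neg_one hp2]
  exact ZMod.χ₄_nat_three_mod_four h

theorem leg_two_seven (p : ℕ) [Fact p.Prime] (h : p % 8 = 7) : legendreSym p 2 = 1 := by
  have hp2 : p ≠ 2 := by omega
  rw [legendreSym.at_two hp2, ZMod.χ₈_nat_eq_if_mod_eight]
  simp [h]
  omega

theorem leg_sq' (p : ℕ) [Fact p.Prime] {a : ℤ} (h : ¬ (p : ℤ) ∣ a) : legendreSym p (a ^ 2) = 1 := by
  have h0 : (a : ZMod p) ≠ 0 := by
    rw [Ne, ZMod.intCast_zmod_eq_zero_iff_dvd]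
    exact h
  rw [sq, legendreSym.mul, ← sq]
  exact legendreSym.sq_one p h0

/-- the prime divisors of `p q² r` -/
theorem prime_dvd {l p q r : ℕ} (hl : l.Prime) (hp : p.Prime) (hq : q.Prime) (hr : r.Prime)
    (h : (l : ℤ) ∣ (p : ℤ) * q ^ 2 * r) : l = p ∨ l = q ∨ l = r := by
  have h1 : l ∣ p * q ^ 2 * r := by exact_mod_cast h
  rcases (Nat.Prime.dvd_mul hl).1 h1 with h2 | h2
  · rcases (Nat.Prime.dvd_mul hl).1 h2 with h3 | h3
    · exact Or.inl ((Nat.prime_dvd_prime_iff_eq hl hp).1 h3)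
    · exact Or.inr (Or.inl ((Nat.prime_dvd_prime_iff_eq hl hq).1 (hl.dvd_of_dvd_pow h3)))
  · exact Or.inr (Or.inr ((Nat.prime_dvd_prime_iff_eq hl hr).1 h2))

theorem vc2 (hRLC : RlcStmt) (hLA : LaStmt) (hLD : LdStmt) (hSQF : NJ.SQFStmt) : Vc2Stmt := by
  intro p q r hRC d M e N B Q hpd
  have fp : Fact p.Prime := ⟨hRC.pp⟩
  have fq : Fact q.Prime := ⟨hRC.pq⟩
  have fr : Fact r.Prime := ⟨hRC.pr⟩
  obtain ⟨hr8, s, S⟩ := hRLC p q r hRC
  have hp8 := hRC.mp
  have hq8 := hRC.mq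
  have hrz := hRC.hr
  -- the prime `q`
  have hq1 : legendreSym q (2 * (-(2 * (p : ℤ))) * (32 * p)) = -1 := by
    have e1 : (2 * (-(2 * (p : ℤ))) * (32 * p)) = (-1) * (2 * (8 * (p : ℤ)) ^ 2) := by ring
    have h8 : ¬ (q : ℤ) ∣ 8 * (p : ℤ) := by
      intro hd
      have hd' : q ∣ 8 * p := by exact_mod_cast hd
      rcases (Nat.Prime.dvd_mul hRC.pq).1 hd' with h | h
      · have h3 : q ∣ 2 ^ 3 := h
        have := (Nat.prime_dvd_prime_iff_eq hRC.pq Nat.prime_two).1 (hRC.pq.dvd_of_dvd_pow h3)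
        exact S.q2 this
      · exact S.npq ((Nat.prime_dvd_prime_iff_eq hRC.pq hRC.pp).1 h).symm
    rw [e1, legendreSym.mul, legendreSym.mul, leg_neg_one q (by omega), leg_two_seven q hq8,
      leg_sq' q h8]
    norm_num
  obtain ⟨hqd, hqs⟩ := hLD _ _ d M e N B Q q (-(2 * p)) (-(p * r)) (32 * p) S.q2 (by ring) (by ring)
    (by
      have : (r : ℤ) = 8 * q - p := hrz
      rw [this]; ring) hq1
  -- the prime `p`
  have hps : legendreSym p d = 1 := by
    refine hLA _ _ d M e N B Q p S.p2 hpd (Or.inl ⟨⟨-(2 * q), by ring⟩, ⟨-(q ^ 2 * r), by ring⟩, ?_⟩)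
    intro hd
    have h1 : (p : ℤ) * p ∣ (p : ℤ) * (q ^ 2 * r) := by
      rw [← sq]
      have := dvd_neg.2 hd
      have e1 : -(-((p : ℤ) * q ^ 2 * r)) = (p : ℤ) * (q ^ 2 * r) := by ring
      rwa [e1] at this
    have hp0 : (p : ℤ) ≠ 0 := by exact_mod_cast hRC.pp.ne_zero
    have h2 := Int.dvd_of_mul_dvd_mul_left hp0 h1
    have hpZ : Prime (p : ℤ) := Nat.prime_iff_prime_int.1 hRC.pp
    rcases hpZ.dvd_or_dvd h2 with h3 | h3
    · exact not_dvd hRC.pp hRC.pq S.npq (hpZ.dvd_of_dvd_pow h3)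
    · exact not_dvd hRC.pp hRC.pr S.npr h3
  -- `d` is odd
  have hdb : d ∣ (p : ℤ) * q ^ 2 * r := by
    have h1 : d ∣ -((p : ℤ) * q ^ 2 * r) := ⟨B, Q.hb⟩
    exact (dvd_neg.1 h1)
  have hodd : ¬ (2 : ℤ) ∣ d := by
    intro hd
    rcases prime_dvd Nat.prime_two hRC.pp hRC.pq hRC.pr (hd.trans hdb) with h | h | h
    · exact S.p2 h.symm
    · exact S.q2 h.symm
    · exact S.r2 h.symm
  have hsup : ∀ l : ℕ, l.Prime → (l : ℤ) ∣ d → l = 2 ∨ l = r := by
    intro l hl hd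
    rcases prime_dvd hl hRC.pp hRC.pq hRC.pr (hd.trans hdb) with h | h | h
    · rw [h] at hd; exact absurd hd hpd
    · rw [h] at hd; exact absurd hd hqd
    · exact Or.inr h
  obtain ⟨ε, hε, hd⟩ := (hSQF d r q Q.sqf hRC.pr hRC.pq S.r2 S.q2 S.nqr.symm).1 hsup
  have hpm : legendreSym p (-1) = -1 := leg_neg_one p (by omega)
  have hqm : legendreSym q (-1) = -1 := leg_neg_one q (by omega)
  rcases hd with h | h | h | h
  · rcases hε with rfl | rfl
    · exact h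
    · rw [h, hqm] at hqs
      norm_num at hqs
  · exact absurd ⟨ε, by rw [h]; ring⟩ hodd
  · exfalso
    rcases hε with rfl | rfl
    · rw [h, one_mul, S.hpR] at hps
      rw [h, one_mul, S.hqR] at hqs
      rw [hqs] at hps
      norm_num at hps
    · rw [h, legendreSym.mul, hpm, S.hpR] at hps
      rw [h, legendreSym.mul, hqm, S.hqR] at hqs
      have h1 : s = 1 := by linarith
      rw [h1] at hqs
      norm_num at hqs
  · exact absurd ⟨ε * r, by rw [h]; ring⟩ hodd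

end Pool.Agent.G02.H62
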